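import Pool.Agent.W280.PC.Affine
import Pool.Agent.TH829.PC.Sym

set_option autoImplicit false
set_option maxHeartbeats 4000000

/-!
Systems of rank two and three with any number of singular points at which the exponents are integral
(helper183). The symmetric form of the inequalities in any rank, and the removal of the points with
integral exponents.
-/

namespace Pool.Agent.Q183.PS

open Finset Polynomial Pool.Agent.W280.PC Pool.Agent.W432.PC Pool.Agent.TH829.PC

lemma wI_div {N : ℕ} {x : ℤ} (h : (N : ℤ) ∣ x) (a : ℤ) : wI N a x = 0 ∨ wI N a x = N := by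
  unfold wI
  by_cases h1 : x < 0 ∧ (N : ℤ) ∣ x
  · rw [if_pos h1]; right; rfl
  · rw [if_neg h1]; left; exact Int.emod_eq_zero_of_dvd (h.mul_left a)

lemma extra {r : ℕ} [NeZero r] {N : ℤ} {w : Fin r → ℤ} (hm : Monotone w) (hN : 0 < N)
    (h : ∀ l, w l = 0 ∨ w l = N) :
    ∃ (k : Fin r) (t : ℤ), (∑ l, w l) + ((k : ℕ) : ℤ) * N = r * t * N ∧ w k = t * N := by
  classical
  by_cases hS : ∃ l, w l = N
  · -- the first index with weight `N`
    have hne : (univ.filter fun l => w l = N).Nonempty := by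
      obtain ⟨l, hl⟩ := hS
      exact ⟨l, by simpa using hl⟩
    set k := (univ.filter fun l => w l = N).min' hne with hk
    have hkN : w k = N := by
      have := Finset.min'_mem _ hne
      simpa using this
    have hge : ∀ l, k ≤ l → w l = N := by
      intro l hl
      rcases h l with h0 | h0
      · have := hm hl
        omega
      · exact h0
    have hlt : ∀ l, ¬ k ≤ l → w l = 0 := by
      intro l hl
      rcases h l with h0 | h0
      · exact h0
      · exact absurd (Finset.min'_le _ l (by simpa using h0)) hl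
    refine ⟨k, 1, ?_, by rw [hkN]; ring⟩
    have h1 : ∑ l, w l = ∑ l, if k ≤ l then N else 0 :=
      Finset.sum_congr rfl fun l _ => by
        by_cases hl : k ≤ l
        · rw [if_pos hl, hge l hl]
        · rw [if_neg hl, hlt l hl]
    rw [h1, ← Finset.sum_filter, Finset.sum_const]
    have h2 : (univ.filter fun l => k ≤ l) = Finset.Ici k := by ext; simp
    rw [h2, Fin.card_Ici, nsmul_eq_mul]
    have h3 : (k : ℕ) ≤ r := k.2.le
    push_cast [Nat.cast_sub h3]
    ring
  · push Not at hS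
    have h0 : ∀ l, w l = 0 := fun l => (h l).resolve_right (hS l)
    refine ⟨0, 0, ?_, by rw [h0]; ring⟩
    rw [Finset.sum_congr rfl (fun l _ => h0 l)]
    simp

/-- removal of the points all of whose weights are `0` or `N` -/
theorem reduce {I : Type*} [Fintype I] [DecidableEq I] {r m : ℕ} [NeZero r] {N : ℤ} (hN : 0 < N)
    {W : I → Fin r → ℤ} (hW : ∀ x, Monotone (W x))
    (hI : ∀ (M q : ℤ) (κ : I → Fin r), ∑ x, ∑ l, W x l = M * N →
      M + ∑ x, ((κ x : ℕ) : ℤ) = r * q + (r - 1) → ∑ x, W x (κ x) < q * N)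
    (P : Fin m ↪ I) (hx : ∀ x, x ∉ Set.range P → ∀ l, W x l = 0 ∨ W x l = N)
    (M0 q : ℤ) (κ0 : Fin m → Fin r) (hM : ∑ i, ∑ l, W (P i) l = M0 * N)
    (hq : M0 + ∑ i, ((κ0 i : ℕ) : ℤ) = r * q + (r - 1)) : ∑ i, W (P i) (κ0 i) < q * N := by
  classical
  have hex : ∀ x, ∃ (k : Fin r) (t : ℤ), x ∉ Set.range P →
      ((∑ l, W x l) + ((k : ℕ) : ℤ) * N = r * t * N ∧ W x k = t * N) := by
    intro x
    by_cases h : x ∈ Set.range P
    · exact ⟨0, 0, fun h' => absurd h h'⟩
    · obtain ⟨k, t, h1⟩ := extra (hW x) hN (hx x h)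
      exact ⟨k, t, fun _ => h1⟩
  choose k t hkt using hex
  set κ : I → Fin r := Function.extend P κ0 k with hκ
  have hκP : ∀ i, κ (P i) = κ0 i := fun i => P.injective.extend_apply κ0 k i
  have hκx : ∀ x, x ∉ Set.range P → κ x = k x := fun x h => by
    rw [hκ, Function.extend_apply' _ _ _ (fun ⟨i, hi⟩ => h ⟨i, hi⟩)]
  have hsplit : ∀ f : I → ℤ, ∑ x, f x = ∑ i, f (P i) + ∑ x ∈ (univ.map P)ᶜ, f x := by
    intro f
    rw [← Finset.sum_add_sum_compl (univ.map P) f, Finset.sum_map]
  have hmem : ∀ x, x ∈ (univ.map P)ᶜ → x ∉ Set.range P := by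
    intro x h1 ⟨i, hi⟩
    rw [Finset.mem_compl] at h1
    exact h1 (Finset.mem_map.2 ⟨i, mem_univ _, hi⟩)
  have h1 : ∑ x, ∑ l, W x l = (M0 + ∑ x ∈ (univ.map P)ᶜ, (r * t x - ((k x : ℕ) : ℤ))) * N := by
    rw [hsplit, hM, add_mul, Finset.sum_mul]
    congr 1
    refine Finset.sum_congr rfl fun x h2 => ?_
    have := (hkt x (hmem x h2)).1
    linarith
  have h2 : (M0 + ∑ x ∈ (univ.map P)ᶜ, (r * t x - ((k x : ℕ) : ℤ))) + ∑ x, ((κ x : ℕ) : ℤ) =
      r * (q + ∑ x ∈ (univ.map P)ᶜ, t x) + (r - 1) := by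
    have ea : ∑ i, ((κ (P i) : ℕ) : ℤ) = ∑ i, ((κ0 i : ℕ) : ℤ) :=
      Finset.sum_congr rfl (fun i _ => by rw [hκP i])
    have eb : ∑ x ∈ (univ.map P)ᶜ, ((κ x : ℕ) : ℤ) = ∑ x ∈ (univ.map P)ᶜ, ((k x : ℕ) : ℤ) :=
      Finset.sum_congr rfl (fun x h2 => by rw [hκx x (hmem x h2)])
    rw [hsplit, ea, eb, Finset.sum_sub_distrib, mul_add, Finset.mul_sum]
    linarith
  have h3 := hI _ _ κ h1 h2
  have ea : ∑ i, W (P i) (κ (P i)) = ∑ i, W (P i) (κ0 i) :=
    Finset.sum_congr rfl (fun i _ => by rw [hκP i])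
  have eb : ∑ x ∈ (univ.map P)ᶜ, W x (κ x) = ∑ x ∈ (univ.map P)ᶜ, t x * N :=
    Finset.sum_congr rfl (fun x h2 => by
      rw [hκx x (hmem x h2)]; exact (hkt x (hmem x h2)).2)
  rw [hsplit, ea, eb, ← Finset.sum_mul] at h3
  linarith

/-- changing one exponent that is not integral -/
lemma adj {J : Type*} [Fintype J] [DecidableEq J] {r : ℕ} {N : ℕ} (e : J → Fin r → ℤ) (s : J → ℤ)
    (hs1 : ∀ i, s i * s i = 1) (hs : (N : ℤ) ∣ ∑ i, s i * ∑ l, e i l)
    (hx : ∃ i l, ¬ (N : ℤ) ∣ e i l) :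
    ∃ e' : J → Fin r → ℤ, (∀ i l, (N : ℤ) ∣ e' i l - e i l) ∧
      (∀ a i l, wI N a (e' i l) = wI N a (e i l)) ∧ ∑ i, s i * ∑ l, e' i l = 0 := by
  obtain ⟨K, hK⟩ := hs
  obtain ⟨i, l, hl⟩ := hx
  set e1 : J → Fin r → ℤ := Function.update e i (Function.update (e i) l (e i l + (-(s i * K)) * N))
    with he1
  refine ⟨e1, ?_, ?_, ?_⟩
  · intro i' l'
    by_cases h : i' = i
    · subst h
      rw [he1, Function.update_self]
      by_cases h' : l' = l
      · subst h'
        rw [Function.update_self]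
        exact ⟨-(s i' * K), by ring⟩
      · rw [Function.update_of_ne h']; simp
    · rw [he1, Function.update_of_ne h]; simp
  · intro a i' l'
    by_cases h : i' = i
    · subst h
      rw [he1, Function.update_self]
      by_cases h' : l' = l
      · subst h'
        rw [Function.update_self, wI_shift hl]
      · rw [Function.update_of_ne h']
    · rw [he1, Function.update_of_ne h]
  · have h1 : ∀ i' ∈ univ.erase i, s i' * ∑ l, e1 i' l = s i' * ∑ l, e i' l := by
      intro i' hi'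
      rw [he1, Function.update_of_ne (Finset.ne_of_mem_erase hi')]
    have h2 : ∑ l', e1 i l' = ∑ l', e i l' + (-(s i * K)) * N := by
      rw [he1, Function.update_self, Finset.sum_update_of_mem (mem_univ l),
        ← Finset.add_sum_erase univ (e i) (mem_univ l), Finset.sdiff_singleton_eq_erase]
      ring
    rw [← Finset.add_sum_erase univ (fun i => s i * ∑ l, e1 i l) (mem_univ i),
      Finset.sum_congr rfl h1, h2, mul_add, add_right_comm,
      Finset.add_sum_erase univ (fun i => s i * ∑ l, e i l) (mem_univ i), hK]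
    have := hs1 i
    linear_combination (-K * N) * this

universe u

variable {R : Type u} [CommRing R] [IsDomain R] [CharZero R]

/-- the representatives of the exponents: at infinity the weights are those of `-(∑ A j)` -/
def pt {n r : ℕ} (N : ℕ) (e : Option (Fin n) → Fin r → ℤ) : Option (Fin n) → Fin r → ℤ
  | none => fun l => ng N (-e none l)
  | some j => e (some j)

lemma pt_mod {n r : ℕ} (N : ℕ) (e : Option (Fin n) → Fin r → ℤ) (x : Option (Fin n)) (l : Fin r) :
    (N : ℤ) ∣ pt N e x l - e x l := by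
  cases x with
  | none =>
    have h := ng_mod N (-e none l)
    rw [← sub_eq_add_neg] at h
    exact h
  | some j => simp [pt]

/-- the permutations -/
def sg {n r : ℕ} (σ : Fin n → Equiv.Perm (Fin r)) (τ : Equiv.Perm (Fin r)) :
    Option (Fin n) → Equiv.Perm (Fin r)
  | none => Fin.revPerm.trans τ
  | some j => σ j

/-- The inequalities for the points with non-integral exponents. -/
theorem points {n m r : ℕ} [NeZero r] (α : Fin n → R) (hα : ∀ i j, i ≠ j → IsUnit (α i - α j))
    (A : Fin n → Matrix (Fin r) (Fin r) R) (N : ℕ) (hN : 1 < N)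
    (e : Option (Fin n) → Fin r → ℤ)
    (he : ∀ j, HasExponents (A j) (fun l => (e (some j) l : ℚ) / N))
    (he' : HasExponents (∑ j, A j) (fun l => -(e none l : ℚ) / N))
    (P : Fin m ↪ Option (Fin n)) (hint : ∀ x, x ∉ Set.range P → ∀ l, (N : ℤ) ∣ e x l)
    (h2 : ∀ κ : Fin m → Fin r, IsCoprime (∑ i, e (P i) (κ i)) (N : ℤ))
    (hno : ¬ BadClass α A N) (a : ℤ) (ha : IsCoprime a (N : ℤ)) :
    ∃ σ : Fin m → Equiv.Perm (Fin r),
      (∀ i, Monotone fun l => wI N a (pt N e (P i) (σ i l))) ∧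
      ∀ (M q : ℤ) (κ : Fin m → Fin r), ∑ i, ∑ l, wI N a (pt N e (P i) l) = M * N →
        M + ∑ i, ((κ i : ℕ) : ℤ) = r * q + (r - 1) →
        ∑ i, wI N a (pt N e (P i) (σ i (κ i))) < q * N := by
  classical
  have hN0 : 0 < N := by omega
  have hN' : (0 : ℤ) < N := by exact_mod_cast hN0
  have hNq : (N : ℚ) ≠ 0 := by exact_mod_cast hN0.ne'
  have hsplit : ∀ f : Option (Fin n) → ℤ,
      ∑ x, f x = ∑ i, f (P i) + ∑ x ∈ (univ.map P)ᶜ, f x := by
    intro f
    rw [← Finset.sum_add_sum_compl (univ.map P) f, Finset.sum_map]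
  have hmem : ∀ x, x ∈ (univ.map P)ᶜ → x ∉ Set.range P := by
    intro x h1 ⟨i, hi⟩
    rw [Finset.mem_compl] at h1
    exact h1 (Finset.mem_map.2 ⟨i, mem_univ _, hi⟩)
  have hres : ∀ (κ : Fin n → Fin r) (s : Fin r), ¬ (N : ℤ) ∣ ∑ j, e (some j) (κ j) - -e none s := by
    intro κ s hdvd
    set κ' : Option (Fin n) → Fin r := fun x => x.elim s κ with hκ'
    have e1 : ∑ x, e x (κ' x) = ∑ j, e (some j) (κ j) - -e none s := by
      rw [Fintype.sum_option]
      simp only [hκ', Option.elim]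
      ring
    rw [← e1, hsplit] at hdvd
    have e3 : (N : ℤ) ∣ ∑ x ∈ (univ.map P)ᶜ, e x (κ' x) :=
      Finset.dvd_sum fun x hx => hint x (hmem x hx) _
    exact not_dvd_of_coprime hN (h2 (fun i => κ' (P i))) ((Int.dvd_add_left e3).1 hdvd)
  obtain ⟨σ, τ, m1, m2, hI⟩ := ineq_of_not α hα A (fun j l => (e (some j) l : ℚ) / N)
      (fun l => -(e none l : ℚ) / N) he he' N hN (fun j => e (some j)) (fun l => -e none l)
      (fun j l => by field_simp) (fun l => by push_cast; field_simp) a ha hres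
      (fun h => hno ⟨a, ha, h⟩)
  have hW : ∀ x, Monotone fun l => wI N a (pt N e x (sg σ τ x l)) := by
    intro x
    cases x with
    | none =>
      intro u v huv
      have e1 : ∀ l, wI N a (pt N e none (sg σ τ none l)) =
          N - wI N a (-e none (τ (Fin.rev l))) := fun l => wI_ng hN0 ha _
      have := m2 (Fin.rev_le_rev.2 huv)
      simp only [e1]
      simp only at this
      linarith
    | some j => exact m1 j
  have hsym : ∀ (M q : ℤ) (κ : Option (Fin n) → Fin r),
      ∑ x, ∑ l, wI N a (pt N e x (sg σ τ x l)) = M * N →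
      M + ∑ x, ((κ x : ℕ) : ℤ) = r * q + (r - 1) →
      ∑ x, wI N a (pt N e x (sg σ τ x (κ x))) < q * N := by
    intro M q κ hM hq
    have e0 : ∀ x, ∑ l, wI N a (pt N e x (sg σ τ x l)) = ∑ l, wI N a (pt N e x l) :=
      fun x => Equiv.sum_comp (sg σ τ x) (fun l => wI N a (pt N e x l))
    rw [Finset.sum_congr rfl (fun x _ => e0 x), Fintype.sum_option] at hM
    have e1 : ∀ l, wI N a (pt N e none l) = N - wI N a (-e none l) := fun l => wI_ng hN0 ha _
    have e2 : ∀ j l, wI N a (pt N e (some j) l) = wI N a (e (some j) l) := fun j l => rfl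
    simp only [e1, e2, Finset.sum_sub_distrib, Finset.sum_const, Finset.card_univ,
      Fintype.card_fin, nsmul_eq_mul] at hM
    rw [Fintype.sum_option] at hq
    have h4 := hI (M - r) (q - 1) (fun j => κ (some j)) (Fin.rev (κ none)) (by
      push_cast at hM
      linarith) (by
      have h5 : ((Fin.rev (κ none) : Fin r) : ℕ) = r - 1 - (κ none : ℕ) := by
        rw [Fin.val_rev]; omega
      have h6 : (κ none : ℕ) ≤ r - 1 := by have := (κ none).2; omega
      have h7 : 1 ≤ r := Nat.pos_of_ne_zero (NeZero.ne r)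
      rw [h5]
      push_cast [Nat.cast_sub h6, Nat.cast_sub h7]
      linarith)
    rw [Fintype.sum_option]
    have e3 : wI N a (pt N e none (sg σ τ none (κ none))) =
        N - wI N a (-e none (τ (Fin.rev (κ none)))) := wI_ng hN0 ha _
    have e4 : ∀ j, wI N a (pt N e (some j) (sg σ τ (some j) (κ (some j)))) =
        wI N a (e (some j) (σ j (κ (some j)))) := fun j => rfl
    simp only [e3, e4]
    linarith
  have hred := reduce hN' hW hsym P (fun x hx l => wI_div (by
    have h5 := pt_mod N e x (sg σ τ x l)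
    have h6 := hint x hx (sg σ τ x l)
    have h7 := dvd_add h5 h6
    rwa [sub_add_cancel] at h7) a)
  refine ⟨fun i => sg σ τ (P i), fun i => hW (P i), fun M q κ hM hq => hred M q κ ?_ hq⟩
  rw [← hM]
  exact Finset.sum_congr rfl fun i _ =>
    Equiv.sum_comp (sg σ τ (P i)) (fun l => wI N a (pt N e (P i) l))

/-- The sum of all exponents at the points with non-integral exponents. -/
lemma sum_dvd {n m r : ℕ} (A : Fin n → Matrix (Fin r) (Fin r) R) (N : ℕ) (hN : 1 < N)
    (e : Option (Fin n) → Fin r → ℤ)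
    (he : ∀ j, HasExponents (A j) (fun l => (e (some j) l : ℚ) / N))
    (he' : HasExponents (∑ j, A j) (fun l => -(e none l : ℚ) / N))
    (P : Fin m ↪ Option (Fin n)) (hint : ∀ x, x ∉ Set.range P → ∀ l, (N : ℤ) ∣ e x l) :
    (N : ℤ) ∣ ∑ i, ∑ l, pt N e (P i) l := by
  have h0 := trace_rel A N hN (fun j => e (some j)) (fun l => -e none l) he (by push_cast; exact he')
  have h1 : ∑ x, ∑ l, e x l = 0 := by
    rw [Fintype.sum_option, h0, Finset.sum_neg_distrib]; ring
  have hsplit : ∀ f : Option (Fin n) → ℤ,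
      ∑ x, f x = ∑ i, f (P i) + ∑ x ∈ (univ.map P)ᶜ, f x := by
    intro f
    rw [← Finset.sum_add_sum_compl (univ.map P) f, Finset.sum_map]
  have hmem : ∀ x, x ∈ (univ.map P)ᶜ → x ∉ Set.range P := by
    intro x h1 ⟨i, hi⟩
    rw [Finset.mem_compl] at h1
    exact h1 (Finset.mem_map.2 ⟨i, mem_univ _, hi⟩)
  rw [hsplit] at h1
  have h2 : (N : ℤ) ∣ ∑ x ∈ (univ.map P)ᶜ, ∑ l, e x l :=
    Finset.dvd_sum fun x hx => Finset.dvd_sum fun l _ => hint x (hmem x hx) l
  have h3 : (N : ℤ) ∣ ∑ i, ∑ l, e (P i) l := by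
    rw [← Int.dvd_add_left h2, h1]; exact dvd_zero _
  have h4 : (N : ℤ) ∣ ∑ i, ∑ l, pt N e (P i) l - ∑ i, ∑ l, e (P i) l := by
    rw [← Finset.sum_sub_distrib]
    refine Finset.dvd_sum fun i _ => ?_
    rw [← Finset.sum_sub_distrib]
    exact Finset.dvd_sum fun l _ => pt_mod N e _ l
  have h5 := dvd_add h4 h3
  rwa [sub_add_cancel] at h5

end Pool.Agent.Q183.PS
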