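import Pool.Agent.Q183.PS.Extra

set_option autoImplicit false
set_option maxHeartbeats 4000000

/-!
Systems of rank two and three with any number of singular points at which the exponents are integral:
the theorem (helper183).
-/

namespace Pool.Agent.Q183.PS

open Finset Polynomial Pool.Agent.W280.PC Pool.Agent.W432.PC Pool.Agent.TH829.PC

universe u

variable {R : Type u} [CommRing R] [IsDomain R] [CharZero R]

/-- the signs: the last point is on the other side -/
def sgn {m : ℕ} (i : Fin m) : ℤ := if (i : ℕ) + 1 = m then -1 else 1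

lemma sgn_sq {m : ℕ} (i : Fin m) : sgn i * sgn i = 1 := by
  unfold sgn; split_ifs <;> norm_num

/-- the exponents with the last point moved to the other side -/
def flip {m r : ℕ} (N : ℕ) (f : Fin m → Fin r → ℤ) (i : Fin m) (l : Fin r) : ℤ :=
  if (i : ℕ) + 1 = m then ng N (f i l) else f i l

lemma flip_mod {m r : ℕ} (N : ℕ) (f : Fin m → Fin r → ℤ) (i : Fin m) (l : Fin r) :
    (N : ℤ) ∣ sgn i * flip N f i l - f i l := by
  unfold flip sgn
  split_ifs with h
  · have h1 := ng_mod N (f i l)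
    rw [← dvd_neg] at h1
    rwa [show -(ng N (f i l) + f i l) = -1 * ng N (f i l) - f i l by ring] at h1
  · simp

/-- common preparation -/
lemma prep {n m r : ℕ} (A : Fin n → Matrix (Fin r) (Fin r) R) (N : ℕ) (hN : 1 < N)
    (e : Option (Fin n) → Fin r → ℤ)
    (he : ∀ j, HasExponents (A j) (fun l => (e (some j) l : ℚ) / N))
    (he' : HasExponents (∑ j, A j) (fun l => -(e none l : ℚ) / N))
    (P : Fin m ↪ Option (Fin n)) (hint : ∀ x, x ∉ Set.range P → ∀ l, (N : ℤ) ∣ e x l)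
    (κ : Fin m → Fin r) (h2 : IsCoprime (∑ i, e (P i) (κ i)) (N : ℤ)) :
    ∃ f : Fin m → Fin r → ℤ, (∀ i l, (N : ℤ) ∣ sgn i * f i l - e (P i) l) ∧
      (∀ a i l, wI N a (f i l) = wI N a (flip N (fun i => pt N e (P i)) i l)) ∧
      ∑ i, sgn i * ∑ l, f i l = 0 := by
  have h1 := sum_dvd A N hN e he he' P hint
  have hp : ∀ i l, (N : ℤ) ∣ sgn i * flip N (fun i => pt N e (P i)) i l - e (P i) l := by
    intro i l
    have h3 := dvd_add (flip_mod N (fun i => pt N e (P i)) i l) (pt_mod N e (P i) l)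
    rwa [show sgn i * flip N (fun i => pt N e (P i)) i l - pt N e (P i) l +
      (pt N e (P i) l - e (P i) l) = sgn i * flip N (fun i => pt N e (P i)) i l - e (P i) l by
      ring] at h3
  have h4 : (N : ℤ) ∣ ∑ i, sgn i * ∑ l, flip N (fun i => pt N e (P i)) i l := by
    have h5 : (N : ℤ) ∣ ∑ i, sgn i * ∑ l, flip N (fun i => pt N e (P i)) i l -
        ∑ i, ∑ l, pt N e (P i) l := by
      rw [← Finset.sum_sub_distrib]
      refine Finset.dvd_sum fun i _ => ?_
      rw [Finset.mul_sum, ← Finset.sum_sub_distrib]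
      exact Finset.dvd_sum fun l _ => flip_mod N (fun i => pt N e (P i)) i l
    have h6 := dvd_add h5 h1
    rwa [sub_add_cancel] at h6
  have h7 : ∃ i l, ¬ (N : ℤ) ∣ flip N (fun i => pt N e (P i)) i l := by
    by_contra hall
    push Not at hall
    apply not_dvd_of_coprime hN h2
    refine Finset.dvd_sum fun i _ => ?_
    have h8 := dvd_sub ((hall i (κ i)).mul_left (sgn i)) (hp i (κ i))
    rwa [sub_sub_cancel] at h8
  obtain ⟨f, f1, f2, f3⟩ := adj _ sgn sgn_sq h4 h7
  refine ⟨f, fun i l => ?_, f2, f3⟩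
  have h9 := dvd_add ((f1 i l).mul_left (sgn i)) (hp i l)
  rwa [show sgn i * (f i l - flip N (fun i => pt N e (P i)) i l) +
    (sgn i * flip N (fun i => pt N e (P i)) i l - e (P i) l) = sgn i * f i l - e (P i) l by
    ring] at h9

/-- transfer of being prime to `N` or divisible by `N` -/
lemma tr {N : ℕ} {x y : ℤ} (hxy : (N : ℤ) ∣ x - y) (h : IsCoprime y (N : ℤ) ∨ (N : ℤ) ∣ y) :
    IsCoprime x (N : ℤ) ∨ (N : ℤ) ∣ x := by
  rcases h with h | h
  · exact Or.inl (cop_congr hxy h)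
  · right
    have := dvd_add hxy h
    rwa [sub_add_cancel] at this

lemma sgn_diff {m r : ℕ} {N : ℤ} {f g : Fin m → Fin r → ℤ}
    (h : ∀ i l, N ∣ sgn i * f i l - g i l) (i : Fin m) (l l' : Fin r) :
    N ∣ (f i l - f i l') - sgn i * (g i l - g i l') := by
  have h1 := (dvd_sub (h i l) (h i l')).mul_left (sgn i)
  have h2 := sgn_sq i
  rwa [show sgn i * (sgn i * f i l - g i l - (sgn i * f i l' - g i l')) =
    (sgn i * sgn i) * (f i l - f i l') - sgn i * (g i l - g i l') by ring, h2, one_mul] at h1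

lemma sgn_cop {m : ℕ} {N : ℤ} (i : Fin m) {x : ℤ} (h : IsCoprime x N ∨ N ∣ x) :
    IsCoprime (sgn i * x) N ∨ N ∣ sgn i * x := by
  rcases h with h | h
  · left
    unfold sgn
    split_ifs
    · rw [neg_one_mul]; exact h.neg_left
    · rwa [one_mul]
  · right; exact h.mul_left _

theorem rank3 {n : ℕ} (α : Fin n → R) (hα : ∀ i j, i ≠ j → IsUnit (α i - α j))
    (A : Fin n → Matrix (Fin 3) (Fin 3) R) (N : ℕ) (hN : 1 < N)
    (e : Option (Fin n) → Fin 3 → ℤ)
    (he : ∀ j, HasExponents (A j) (fun l => (e (some j) l : ℚ) / N))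
    (he' : HasExponents (∑ j, A j) (fun l => -(e none l : ℚ) / N))
    (P : Fin 3 ↪ Option (Fin n)) (hint : ∀ x, x ∉ Set.range P → ∀ l, (N : ℤ) ∣ e x l)
    (h1 : ∀ i l l', IsCoprime (e (P i) l - e (P i) l') (N : ℤ) ∨ (N : ℤ) ∣ e (P i) l - e (P i) l')
    (h2 : ∀ κ : Fin 3 → Fin 3, IsCoprime (∑ i, e (P i) (κ i)) (N : ℤ)) :
    BadClass α A N := by
  by_contra hcon
  have hN0 : 0 < N := by omega
  obtain ⟨f, f1, f2, f3⟩ := prep A N hN e he he' P hint (fun _ => 0) (h2 _)
  rw [Fin.sum_univ_three] at f3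
  have s0 : sgn (0 : Fin 3) = 1 := by decide
  have s1 : sgn (1 : Fin 3) = 1 := by decide
  have s2 : sgn (2 : Fin 3) = -1 := by decide
  rw [s0, s1, s2] at f3
  refine arith3 hN (e1 := f 0) (e2 := f 1) (e3 := f 2) (by linarith)
    (fun l l' => tr (sgn_diff f1 0 l l') (sgn_cop 0 (h1 0 l l')))
    (fun l l' => tr (sgn_diff f1 1 l l') (sgn_cop 1 (h1 1 l l')))
    (fun l l' => tr (sgn_diff f1 2 l l') (sgn_cop 2 (h1 2 l l'))) (fun i j k => ?_)
    (fun a ha => ?_)
  · have := h2 ![i, j, k]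
    rw [Fin.sum_univ_three] at this
    refine cop_congr ?_ this
    have := dvd_add (dvd_add (f1 0 i) (f1 1 j)) (f1 2 k)
    simp only [Matrix.cons_val_zero, Matrix.cons_val_one, Matrix.cons_val_two, Matrix.head_cons,
      Matrix.tail_cons]
    rw [s0, s1, s2] at this
    rwa [show 1 * f 0 i - e (P 0) i + (1 * f 1 j - e (P 1) j) + (-1 * f 2 k - e (P 2) k) =
      f 0 i + f 1 j - f 2 k - (e (P 0) i + e (P 1) j + e (P 2) k) by ring] at this
  · obtain ⟨σ, hm, hI⟩ := points α hα A N hN e he he' P hint h2 hcon a ha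
    have g0 : ∀ l, wI N a (f 0 l) = wI N a (pt N e (P 0) l) := fun l => f2 a 0 l
    have g1 : ∀ l, wI N a (f 1 l) = wI N a (pt N e (P 1) l) := fun l => f2 a 1 l
    have g2 : ∀ l, wI N a (f 2 l) = N - wI N a (pt N e (P 2) l) := fun l => by
      rw [f2 a 2 l]; exact wI_ng hN0 ha _
    have hU : Uni3 N (pt N e (P 0)) (pt N e (P 1)) (f 2) a := by
      refine uni3_of g2 (σ 0) (σ 1) (σ 2) (hm 0) (hm 1) (hm 2) ?_
      intro M q i j k hM hq
      have := hI M q ![i, j, k] (by rw [Fin.sum_univ_three]; exact hM) (by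
        rw [Fin.sum_univ_three]
        simp only [Matrix.cons_val_zero, Matrix.cons_val_one, Matrix.cons_val_two,
          Matrix.head_cons, Matrix.tail_cons]
        push_cast
        linarith)
      rw [Fin.sum_univ_three] at this
      simpa using this
    unfold Uni3 at hU ⊢
    simpa only [g0, g1] using hU

theorem rank2 {n : ℕ} (α : Fin n → R) (hα : ∀ i j, i ≠ j → IsUnit (α i - α j))
    (A : Fin n → Matrix (Fin 2) (Fin 2) R) (N : ℕ) (hN : 1 < N)
    (e : Option (Fin n) → Fin 2 → ℤ)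
    (he : ∀ j, HasExponents (A j) (fun l => (e (some j) l : ℚ) / N))
    (he' : HasExponents (∑ j, A j) (fun l => -(e none l : ℚ) / N))
    (P : Fin 4 ↪ Option (Fin n)) (hint : ∀ x, x ∉ Set.range P → ∀ l, (N : ℤ) ∣ e x l)
    (h1 : ∀ i l l', IsCoprime (e (P i) l - e (P i) l') (N : ℤ) ∨ (N : ℤ) ∣ e (P i) l - e (P i) l')
    (h2 : ∀ κ : Fin 4 → Fin 2, IsCoprime (∑ i, e (P i) (κ i)) (N : ℤ)) :
    BadClass α A N := by
  by_contra hcon
  have hN0 : 0 < N := by omega
  obtain ⟨f, f1, f2, f3⟩ := prep A N hN e he he' P hint (fun _ => 0) (h2 _)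
  rw [Fin.sum_univ_four] at f3
  have s0 : sgn (0 : Fin 4) = 1 := by decide
  have s1 : sgn (1 : Fin 4) = 1 := by decide
  have s2 : sgn (2 : Fin 4) = 1 := by decide
  have s3 : sgn (3 : Fin 4) = -1 := by decide
  rw [s0, s1, s2, s3] at f3
  refine arith2 hN (e1 := f 0) (e2 := f 1) (e3 := f 2) (e4 := f 3) (by linarith)
    (fun l l' => tr (sgn_diff f1 0 l l') (sgn_cop 0 (h1 0 l l')))
    (fun l l' => tr (sgn_diff f1 1 l l') (sgn_cop 1 (h1 1 l l')))
    (fun l l' => tr (sgn_diff f1 2 l l') (sgn_cop 2 (h1 2 l l')))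
    (fun l l' => tr (sgn_diff f1 3 l l') (sgn_cop 3 (h1 3 l l'))) (fun i j k s => ?_)
    (fun a ha => ?_)
  · have := h2 ![i, j, k, s]
    rw [Fin.sum_univ_four] at this
    refine cop_congr ?_ this
    have := dvd_add (dvd_add (dvd_add (f1 0 i) (f1 1 j)) (f1 2 k)) (f1 3 s)
    rw [s0, s1, s2, s3] at this
    simp only [Matrix.cons_val_zero, Matrix.cons_val_one, Matrix.cons_val]
    rwa [show 1 * f 0 i - e (P 0) i + (1 * f 1 j - e (P 1) j) + (1 * f 2 k - e (P 2) k) +
      (-1 * f 3 s - e (P 3) s) =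
      f 0 i + f 1 j + f 2 k - f 3 s - (e (P 0) i + e (P 1) j + e (P 2) k + e (P 3) s) by ring]
      at this
  · obtain ⟨σ, hm, hI⟩ := points α hα A N hN e he he' P hint h2 hcon a ha
    have g0 : ∀ l, wI N a (f 0 l) = wI N a (pt N e (P 0) l) := fun l => f2 a 0 l
    have g1 : ∀ l, wI N a (f 1 l) = wI N a (pt N e (P 1) l) := fun l => f2 a 1 l
    have g2 : ∀ l, wI N a (f 2 l) = wI N a (pt N e (P 2) l) := fun l => f2 a 2 l
    have g3 : ∀ l, wI N a (f 3 l) = N - wI N a (pt N e (P 3) l) := fun l => by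
      rw [f2 a 3 l]; exact wI_ng hN0 ha _
    refine ⟨σ 0, σ 1, σ 2, Fin.revPerm.trans (σ 3), ?_, ?_, ?_, ?_, ?_⟩
    · simpa only [g0] using hm 0
    · simpa only [g1] using hm 1
    · simpa only [g2] using hm 2
    · intro x y hxy
      simp only [Equiv.trans_apply, Fin.revPerm_apply, g3]
      have := hm 3 (Fin.rev_le_rev.2 hxy)
      simp only at this
      linarith
    · intro m q i j k s hM hq
      simp only [Equiv.trans_apply, Fin.revPerm_apply, g0, g1, g2, g3] at hM ⊢
      have := hI (m + 2) (q + 1) ![i, j, k, Fin.rev s] (by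
        rw [Fin.sum_univ_four]
        rw [Finset.sum_sub_distrib] at hM
        simp only [Finset.sum_const, Finset.card_univ, Fintype.card_fin, nsmul_eq_mul] at hM
        push_cast at hM
        linarith) (by
        rw [Fin.sum_univ_four]
        simp only [Matrix.cons_val_zero, Matrix.cons_val_one, Matrix.cons_val]
        have h2 : ((Fin.rev s : Fin 2) : ℕ) = 1 - (s : ℕ) := by
          rw [Fin.val_rev]; omega
        have h3 : (s : ℕ) ≤ 1 := by omega
        rw [h2]
        push_cast [Nat.cast_sub h3]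
        linarith)
      rw [Fin.sum_univ_four] at this
      simp only [Matrix.cons_val_zero, Matrix.cons_val_one, Matrix.cons_val] at this
      linarith

/-- **Systems of rank two with at most four, or rank three with at most three, points with
non-integral exponents.** -/
theorem extraPoints {n m r : ℕ} (hmr : (m - 2) * (r - 1) = 2) (hm : 2 ≤ m) (α : Fin n → R)
    (hα : ∀ i j, i ≠ j → IsUnit (α i - α j))
    (A : Fin n → Matrix (Fin r) (Fin r) R) (N : ℕ) (hN : 1 < N)
    (e : Option (Fin n) → Fin r → ℤ)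
    (he : ∀ j, HasExponents (A j) (fun l => (e (some j) l : ℚ) / N))
    (he' : HasExponents (∑ j, A j) (fun l => -(e none l : ℚ) / N))
    (P : Fin m ↪ Option (Fin n)) (hint : ∀ x, x ∉ Set.range P → ∀ l, (N : ℤ) ∣ e x l)
    (h1 : ∀ i l l', IsCoprime (e (P i) l - e (P i) l') (N : ℤ) ∨ (N : ℤ) ∣ e (P i) l - e (P i) l')
    (h2 : ∀ κ : Fin m → Fin r, IsCoprime (∑ i, e (P i) (κ i)) (N : ℤ)) :
    BadClass α A N := by
  have hcase : (m = 3 ∧ r = 3) ∨ (m = 4 ∧ r = 2) := by
    have h4 : (m - 2) ∣ 2 := ⟨_, hmr.symm⟩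
    have h5 := (Nat.dvd_prime Nat.prime_two).1 h4
    rcases h5 with h5 | h5
    · rw [h5] at hmr; left; omega
    · rw [h5] at hmr; right; omega
  rcases hcase with ⟨rfl, rfl⟩ | ⟨rfl, rfl⟩
  · exact rank3 α hα A N hN e he he' P hint h1 h2
  · exact rank2 α hα A N hN e he he' P hint h1 h2

end Pool.Agent.Q183.PS
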